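import Mathlib

set_option autoImplicit false

namespace Pool.Agent.Results.MP_b5825f_co.LongCritical

section Defs

variable {P : Type} [PartialOrder P]

/-- `e` is a linear extension of `P`, given by positions `0, 1, ..., |P| - 1`. -/
def IsLinExt (e : P → ℕ) : Prop :=
  Set.BijOn e Set.univ (Set.Iio (Nat.card P)) ∧ ∀ x y, x < y → e x < e y

/-- The number of jumps of `e`: pairs `(x, y)` with `y` the immediate successor of `x` in the
linear extension and not `x < y` in `P`. -/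
noncomputable def jumps (e : P → ℕ) : ℕ :=
  Nat.card {p : P × P // e p.2 = e p.1 + 1 ∧ ¬ p.1 < p.2}

/-- The jump number. -/
noncomputable def jumpNumber (P : Type) [PartialOrder P] : ℕ :=
  sInf {k | ∃ e : P → ℕ, IsLinExt e ∧ jumps e = k}

/-- Jump-critical posets. -/
def JumpCritical (P : Type) [PartialOrder P] : Prop :=
  1 ≤ jumpNumber P ∧ ∀ x : P, jumpNumber {y : P // y ≠ x} < jumpNumber P

lemma jumpNumber_le (e : P → ℕ) (h : IsLinExt e) (k : ℕ) (hk : jumps e ≤ k) :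
    jumpNumber P ≤ k := by
  have h' : jumps e ∈ {k | ∃ e : P → ℕ, IsLinExt e ∧ jumps e = k} := ⟨e, h, rfl⟩
  exact (Nat.sInf_le h').trans hk

lemma jumpNumber_eq (e : P → ℕ) (h : IsLinExt e) (k : ℕ) (hk : jumps e ≤ k)
    (hl : ∀ f : P → ℕ, IsLinExt f → k ≤ jumps f) : jumpNumber P = k := by
  apply le_antisymm (jumpNumber_le e h k hk)
  have hne : {k | ∃ e : P → ℕ, IsLinExt e ∧ jumps e = k}.Nonempty := ⟨_, e, h, rfl⟩
  obtain ⟨f, hf, hf'⟩ := Nat.sInf_mem hne
  have := hl f hf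
  rw [hf'] at this
  exact this

omit [PartialOrder P] in
lemma bijOn_of_inj [Finite P] (e : P → ℕ) (hi : Function.Injective e)
    (hm : ∀ x, e x < Nat.card P) : Set.BijOn e Set.univ (Set.Iio (Nat.card P)) := by
  have hi' : Set.InjOn e Set.univ := hi.injOn
  have hm' : Set.MapsTo e Set.univ (Set.Iio (Nat.card P)) := fun x _ => hm x
  refine ⟨hm', hi', ?_⟩
  have h1 : (Set.Iio (Nat.card P) : Set ℕ).ncard = Nat.card P := by
    rw [← Finset.coe_Iio, Set.ncard_coe_finset, Nat.card_Iio]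
  have h2 : (e '' Set.univ).ncard = Nat.card P := by
    rw [Set.InjOn.ncard_image hi', Set.ncard_univ]
  have h3 := Set.eq_of_subset_of_ncard_le (Set.mapsTo_iff_image_subset.mp hm')
    (by rw [h1, h2]) (Set.finite_Iio _)
  exact h3.ge

end Defs

section Levels

/-- The ordinal sum of `k` two-element antichains. -/
@[ext] structure Lv (k : ℕ) where
  i : Fin k
  a : Fin 2

variable {k : ℕ}

instance : PartialOrder (Lv k) where
  le x y := x = y ∨ x.i < y.i
  le_refl x := Or.inl rfl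
  le_trans x y z := by
    rintro (rfl | h) (rfl | h')
    · exact Or.inl rfl
    · exact Or.inr h'
    · exact Or.inr h
    · exact Or.inr (h.trans h')
  le_antisymm x y := by
    rintro (rfl | h) (h' | h')
    · rfl
    · rfl
    · exact h'.symm
    · exact absurd (h.trans h') (lt_irrefl _)

lemma lv_lt (x y : Lv k) : x < y ↔ x.i < y.i := by
  rw [lt_iff_le_not_ge]
  constructor
  · rintro ⟨(rfl | h), h'⟩
    · exact absurd (Or.inl rfl) h'
    · exact h
  · intro h
    refine ⟨Or.inr h, ?_⟩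
    rintro (rfl | h')
    · exact lt_irrefl _ h
    · exact lt_irrefl _ (h.trans h')

def lvEquiv : Lv k ≃ Fin k × Fin 2 where
  toFun x := (x.i, x.a)
  invFun p := ⟨p.1, p.2⟩
  left_inv _ := rfl
  right_inv _ := rfl

instance : Finite (Lv k) := Finite.of_equiv _ lvEquiv.symm

lemma card_lv : Nat.card (Lv k) = 2 * k := by
  rw [Nat.card_congr lvEquiv, Nat.card_eq_fintype_card, Fintype.card_prod, Fintype.card_fin,
    Fintype.card_fin, mul_comm]

lemma adj (e : Lv k → ℕ) (he : IsLinExt e) (u v : Lv k) (hi : u.i = v.i) (hne : u ≠ v)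
    (hlt : e u < e v) : e v = e u + 1 := by
  by_contra hcon
  have h1 : e u + 1 < e v := by omega
  have h2 : e v < Nat.card (Lv k) := he.1.1 (Set.mem_univ v)
  obtain ⟨y, -, hy⟩ := he.1.2.2 (show e u + 1 ∈ Set.Iio (Nat.card (Lv k)) by
    simp only [Set.mem_Iio]; omega)
  rcases lt_trichotomy y.i u.i with h | h | h
  · have := he.2 y u ((lv_lt _ _).2 h)
    omega
  · have huv : u.a ≠ v.a := fun h => hne (Lv.ext hi h)
    have : y.a = u.a ∨ y.a = v.a := by
      revert huv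
      generalize u.a = p
      generalize v.a = q
      generalize y.a = r
      revert p q r
      decide
    rcases this with h' | h'
    · have : y = u := Lv.ext h h'
      rw [this] at hy
      omega
    · have : y = v := Lv.ext (h.trans hi) h'
      rw [this] at hy
      omega
  · have := he.2 v y ((lv_lt _ _).2 (hi ▸ h))
    omega

lemma lv_lower (e : Lv k → ℕ) (he : IsLinExt e) : k ≤ jumps e := by
  classical
  have key : ∀ i : Fin k, ∃ p : {p : Lv k × Lv k // e p.2 = e p.1 + 1 ∧ ¬ p.1 < p.2},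
      p.1.1.i = i := by
    intro i
    have hne : (⟨i, 0⟩ : Lv k) ≠ ⟨i, 1⟩ := by
      intro h
      have h' := congrArg Lv.a h
      have h'' : (0 : Fin 2) = 1 := h'
      exact absurd h'' (by decide)
    have hne' : e ⟨i, 0⟩ ≠ e ⟨i, 1⟩ := fun h =>
      hne (he.1.2.1 (Set.mem_univ _) (Set.mem_univ _) h)
    rcases lt_or_gt_of_ne hne' with h | h
    · exact ⟨⟨(⟨i, 0⟩, ⟨i, 1⟩), adj e he _ _ rfl hne h, by
        rw [lv_lt]; exact lt_irrefl _⟩, rfl⟩
    · exact ⟨⟨(⟨i, 1⟩, ⟨i, 0⟩), adj e he _ _ rfl hne.symm h, by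
        rw [lv_lt]; exact lt_irrefl _⟩, rfl⟩
  choose f hf using key
  have hinj : Function.Injective f := by
    intro i j h
    rw [← hf i, ← hf j, h]
  have := Nat.card_le_card_of_injective f hinj
  rw [Nat.card_eq_fintype_card, Fintype.card_fin] at this
  exact this

/-- A linear extension with `k` jumps. -/
def lvE (x : Lv k) : ℕ := 2 * x.i + x.a

lemma lvE_lin : IsLinExt (lvE : Lv k → ℕ) := by
  refine ⟨bijOn_of_inj _ ?_ ?_, ?_⟩
  · intro x y h
    simp only [lvE] at h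
    apply Lv.ext
    · apply Fin.ext; omega
    · apply Fin.ext; omega
  · intro x
    rw [card_lv]
    simp only [lvE]
    omega
  · intro x y h
    rw [lv_lt, Fin.lt_def] at h
    simp only [lvE]
    omega

lemma lvE_jumps : jumps (lvE : Lv k → ℕ) ≤ k := by
  let g : {p : Lv k × Lv k // lvE p.2 = lvE p.1 + 1 ∧ ¬ p.1 < p.2} → Fin k := fun p => p.1.1.i
  have hg : Function.Injective g := by
    rintro ⟨⟨x, y⟩, h, h'⟩ ⟨⟨z, w⟩, h1, h1'⟩ hgg
    simp only [g] at hgg
    rw [lv_lt, Fin.lt_def] at h' h1'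
    simp only [lvE] at h h1 h' h1'
    have hgg' := congrArg Fin.val hgg
    have b1 := x.a.2
    have b2 := y.a.2
    have b3 := z.a.2
    have b4 := w.a.2
    have e1 : x = z := by
      apply Lv.ext
      · exact hgg
      · apply Fin.ext; omega
    have e2 : y = w := by
      apply Lv.ext
      · apply Fin.ext; omega
      · apply Fin.ext; omega
    subst e1 e2
    rfl
  have := Nat.card_le_card_of_injective g hg
  rw [Nat.card_eq_fintype_card (α := Fin k), Fintype.card_fin] at this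
  exact this

/-- A linear extension of the poset with `x` removed. -/
def lvD (x : Lv k) (y : {y : Lv k // y ≠ x}) : ℕ :=
  if (y.1.i : ℕ) < x.i then 2 * y.1.i + y.1.a
  else if (y.1.i : ℕ) = x.i then 2 * y.1.i
  else 2 * y.1.i + y.1.a - 1

lemma lvD_card (x : Lv k) : Nat.card {y : Lv k // y ≠ x} = 2 * k - 1 := by
  classical
  have : Fintype (Lv k) := Fintype.ofFinite _
  rw [Nat.card_eq_fintype_card]
  have h := Set.card_ne_eq x
  have h' : Fintype.card (Lv k) = 2 * k := by rw [← Nat.card_eq_fintype_card, card_lv]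
  rw [h'] at h
  exact h

lemma lvD_lin (x : Lv k) : IsLinExt (lvD x) := by
  refine ⟨bijOn_of_inj _ ?_ ?_, ?_⟩
  · rintro ⟨y, hy⟩ ⟨z, hz⟩ h
    simp only [lvD] at h
    have key : y = z := by
      have hya : y.i = x.i → y.a ≠ x.a := fun h1 h2 => hy (Lv.ext h1 h2)
      have hza : z.i = x.i → z.a ≠ x.a := fun h1 h2 => hz (Lv.ext h1 h2)
      have hya' : (y.i : ℕ) = x.i → (y.a : ℕ) ≠ x.a := fun h1 h2 =>
        hya (Fin.ext h1) (Fin.ext h2)
      have hza' : (z.i : ℕ) = x.i → (z.a : ℕ) ≠ x.a := fun h1 h2 =>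
        hza (Fin.ext h1) (Fin.ext h2)
      apply Lv.ext
      · apply Fin.ext
        split_ifs at h <;> omega
      · apply Fin.ext
        split_ifs at h <;> omega
    subst key
    rfl
  · rintro ⟨y, hy⟩
    rw [lvD_card]
    simp only [lvD]
    have := y.i.2
    have := y.a.2
    split_ifs <;> omega
  · rintro ⟨y, hy⟩ ⟨z, hz⟩ h
    have h' : y < z := h
    rw [lv_lt, Fin.lt_def] at h'
    simp only [lvD]
    split_ifs <;> omega

lemma lvD_jumps (x : Lv k) : jumps (lvD x) ≤ k - 1 := by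
  classical
  have hpos : 0 < k := x.i.pos
  have hne : ∀ p : {p : {y : Lv k // y ≠ x} × {y : Lv k // y ≠ x} //
      lvD x p.2 = lvD x p.1 + 1 ∧ ¬ p.1 < p.2},
      p.1.1.1.i ≠ x.i ∧ (p.1.1.1.a : ℕ) = 0 ∧ (p.1.2.1.a : ℕ) = 1 ∧ p.1.2.1.i = p.1.1.1.i := by
    rintro ⟨⟨⟨y, hy⟩, ⟨z, hz⟩⟩, h, h'⟩
    have h'' : ¬ y < z := h'
    rw [lv_lt, Fin.lt_def] at h''
    simp only [lvD] at h
    simp only
    have hya' : (y.i : ℕ) = x.i → (y.a : ℕ) ≠ x.a := fun h1 h2 =>
      hy (Lv.ext (Fin.ext h1) (Fin.ext h2))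
    have hza' : (z.i : ℕ) = x.i → (z.a : ℕ) ≠ x.a := fun h1 h2 =>
      hz (Lv.ext (Fin.ext h1) (Fin.ext h2))
    have hh : (y.i : ℕ) ≠ x.i ∧ (y.a : ℕ) = 0 ∧ (z.a : ℕ) = 1 ∧ (z.i : ℕ) = y.i := by
      split_ifs at h <;> omega
    exact ⟨fun hh' => hh.1 (congrArg Fin.val hh'), hh.2.1, hh.2.2.1, Fin.ext hh.2.2.2⟩
  let g : {p : {y : Lv k // y ≠ x} × {y : Lv k // y ≠ x} //
      lvD x p.2 = lvD x p.1 + 1 ∧ ¬ p.1 < p.2} → {i : Fin k // i ≠ x.i} :=
    fun p => ⟨p.1.1.1.i, (hne p).1⟩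
  have hg : Function.Injective g := by
    intro p q hpq
    have h0 := congrArg Subtype.val hpq
    have hp := hne p
    have hq := hne q
    obtain ⟨⟨⟨y, hy⟩, ⟨z, hz⟩⟩, h, h'⟩ := p
    obtain ⟨⟨⟨y', hy'⟩, ⟨z', hz'⟩⟩, h1, h1'⟩ := q
    simp only at hp hq
    simp only [g] at h0
    have e1 : y = y' := Lv.ext h0 (Fin.ext (hp.2.1.trans hq.2.1.symm))
    have e2 : z = z' := Lv.ext (hp.2.2.2.trans (h0.trans hq.2.2.2.symm))
      (Fin.ext (hp.2.2.1.trans hq.2.2.1.symm))
    subst e1 e2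
    rfl
  have := Nat.card_le_card_of_injective g hg
  rw [Nat.card_eq_fintype_card (α := {i : Fin k // i ≠ x.i})] at this
  have h3 : Fintype.card {i : Fin k // i ≠ x.i} = k - 1 := by
    have := Set.card_ne_eq x.i
    rw [Fintype.card_fin] at this
    exact this
  rw [h3] at this
  exact this

lemma lv_jumpNumber : jumpNumber (Lv k) = k :=
  jumpNumber_eq lvE lvE_lin k lvE_jumps lv_lower

lemma lv_critical (hk : 1 ≤ k) : JumpCritical (Lv k) := by
  unfold JumpCritical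
  rw [lv_jumpNumber]
  refine ⟨hk, fun x => ?_⟩
  have := jumpNumber_le (lvD x) (lvD_lin x) _ (lvD_jumps x)
  omega

end Levels

section Seven

/-- Ground set of the seven-element example. -/
structure Q where
  val : Fin 7
deriving DecidableEq

/-- Its strict order: `1 < 3`; `0, 2 < 4`; `1, 2 < 5`; `0, 1, 2, 3, 5 < 6`. -/
def ltQ (a b : Fin 7) : Bool :=
  (a == 1 && b == 3) || (a == 0 && b == 4) || (a == 2 && b == 4) || (a == 1 && b == 5) ||
  (a == 2 && b == 5) || (b == 6 && a != 6 && a != 4)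

instance : PartialOrder Q where
  le a b := (a.val == b.val || ltQ a.val b.val) = true
  le_refl := by
    rintro ⟨a⟩
    revert a
    decide
  le_trans := by
    rintro ⟨a⟩ ⟨b⟩ ⟨c⟩
    revert a b c
    decide
  le_antisymm := by
    rintro ⟨a⟩ ⟨b⟩
    revert a b
    decide

instance : Fintype Q := Fintype.ofEquiv (Fin 7) ⟨Q.mk, Q.val, fun _ => rfl, fun _ => rfl⟩

instance (a b : Q) : Decidable (a ≤ b) :=
  inferInstanceAs (Decidable ((a.val == b.val || ltQ a.val b.val) = true))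

instance (a b : Q) : Decidable (a < b) := decidable_of_iff (a ≤ b ∧ ¬ b ≤ a) lt_iff_le_not_ge.symm

instance (x : Q) (a b : {y : Q // y ≠ x}) : Decidable (a < b) :=
  inferInstanceAs (Decidable (a.1 < b.1))

lemma card_Q : Nat.card Q = 7 := by
  rw [Nat.card_eq_fintype_card]
  rfl

lemma lt_iffQ (a b : Fin 7) : (⟨a⟩ : Q) < ⟨b⟩ ↔ ltQ a b = true := by
  revert a b
  decide

/-- The element `x` may follow the elements of the list `l`. -/
def ok (l : List (Fin 7)) (x : Fin 7) : Bool :=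
  !(l.contains x) && (List.finRange 7).all fun y => !(ltQ y x) || l.contains y

def jj (x y : Fin 7) : ℕ := if ltQ x y then 0 else 1

/-- The number of jumps of a list (last element first). -/
def jl : List (Fin 7) → ℕ
  | [] => 0
  | [_] => 0
  | x :: y :: l => jl (y :: l) + jj y x

/-- Every completion of the list by `n` more elements has at least three jumps. -/
def srch : ℕ → List (Fin 7) → Bool
  | 0, l => decide (3 ≤ jl l)
  | n + 1, l => (List.finRange 7).all fun x => !(ok l x) || srch n (x :: l)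

lemma srch_step (n : ℕ) (l : List (Fin 7)) (x : Fin 7) (h : srch (n + 1) l = true)
    (hx : ok l x = true) : srch n (x :: l) = true := by
  simp only [srch, List.all_eq_true] at h
  have := h x (List.mem_finRange x)
  rw [hx] at this
  simpa using this

lemma srch7 : srch 7 [] = true := by
  decide +kernel

lemma search (g0 : Fin 7) (h0 : ok [] g0 = true) (g1) (h1 : ok [g0] g1 = true)
    (g2) (h2 : ok [g1, g0] g2 = true) (g3) (h3 : ok [g2, g1, g0] g3 = true)
    (g4) (h4 : ok [g3, g2, g1, g0] g4 = true) (g5) (h5 : ok [g4, g3, g2, g1, g0] g5 = true)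
    (g6) (h6 : ok [g5, g4, g3, g2, g1, g0] g6 = true) :
    3 ≤ jj g0 g1 + jj g1 g2 + jj g2 g3 + jj g3 g4 + jj g4 g5 + jj g5 g6 := by
  have h := srch_step 0 _ g6 (srch_step 1 _ g5 (srch_step 2 _ g4 (srch_step 3 _ g3
    (srch_step 4 _ g2 (srch_step 5 _ g1 (srch_step 6 _ g0 srch7 h0) h1) h2) h3) h4) h5) h6
  simp only [srch, decide_eq_true_eq, jl] at h
  omega

lemma lower (e : Q → ℕ) (he : IsLinExt e) : 3 ≤ jumps e := by
  classical
  have hsurj : ∀ p : Fin 7, ∃ x : Fin 7, e ⟨x⟩ = p := by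
    intro p
    obtain ⟨y, -, hy⟩ := he.1.2.2 (show (p : ℕ) ∈ Set.Iio (Nat.card Q) by
      rw [card_Q]; exact p.2)
    exact ⟨y.val, hy⟩
  choose g hg using hsurj
  have hinj : ∀ x y : Fin 7, e ⟨x⟩ = e ⟨y⟩ → x = y := by
    intro x y h
    have := he.1.2.1 (Set.mem_univ (⟨x⟩ : Q)) (Set.mem_univ ⟨y⟩) h
    exact congrArg Q.val this
  have hmono : ∀ x y : Fin 7, ltQ x y = true → e ⟨x⟩ < e ⟨y⟩ := fun x y h =>
    he.2 _ _ ((lt_iffQ x y).2 h)
  have hgi : ∀ p q : Fin 7, g p = g q → p = q := by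
    intro p q h
    apply Fin.ext
    rw [← hg p, ← hg q, h]
  have hpre : ∀ y p : Fin 7, ltQ y (g p) = true → ∃ q : Fin 7, q < p ∧ g q = y := by
    intro y p h
    have h1 := hmono _ _ h
    rw [hg p] at h1
    refine ⟨⟨e ⟨y⟩, by omega⟩, h1, ?_⟩
    apply hinj
    rw [hg]
  have hok : ∀ p : Fin 7, ∀ l : List (Fin 7), (∀ y, y ∈ l ↔ ∃ q : Fin 7, q < p ∧ g q = y) →
      ok l (g p) = true := by
    intro p l hl
    unfold ok
    rw [Bool.and_eq_true]
    constructor
    · rw [Bool.not_eq_true']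
      by_contra hc
      rw [Bool.not_eq_false, List.contains_iff_mem, hl] at hc
      obtain ⟨q, hq, hq'⟩ := hc
      exact absurd (hgi _ _ hq') hq.ne
    · rw [List.all_eq_true]
      intro y _
      rw [Bool.or_eq_true]
      by_cases hy : ltQ y (g p) = true
      · right
        rw [List.contains_iff_mem, hl]
        exact hpre y p hy
      · left
        simpa using hy
  have hs := search (g 0) (hok 0 _ (by
      intro y; constructor
      · intro h; simp at h
      · rintro ⟨q, hq, -⟩; exact absurd hq (by omega)))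
    (g 1) (hok 1 _ (by
      intro y; simp only [List.mem_cons, List.not_mem_nil, or_false]; constructor
      · rintro rfl; exact ⟨0, by decide, rfl⟩
      · rintro ⟨q, hq, rfl⟩; congr 1; revert q; decide))
    (g 2) (hok 2 _ (by
      intro y; simp only [List.mem_cons, List.not_mem_nil, or_false]; constructor
      · rintro (rfl | rfl)
        · exact ⟨1, by decide, rfl⟩
        · exact ⟨0, by decide, rfl⟩
      · rintro ⟨q, hq, rfl⟩
        have : q = 1 ∨ q = 0 := by revert q; decide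
        rcases this with rfl | rfl <;> simp))
    (g 3) (hok 3 _ (by
      intro y; simp only [List.mem_cons, List.not_mem_nil, or_false]; constructor
      · rintro (rfl | rfl | rfl)
        · exact ⟨2, by decide, rfl⟩
        · exact ⟨1, by decide, rfl⟩
        · exact ⟨0, by decide, rfl⟩
      · rintro ⟨q, hq, rfl⟩
        have : q = 2 ∨ q = 1 ∨ q = 0 := by revert q; decide
        rcases this with rfl | rfl | rfl <;> simp))
    (g 4) (hok 4 _ (by
      intro y; simp only [List.mem_cons, List.not_mem_nil, or_false]; constructor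
      · rintro (rfl | rfl | rfl | rfl)
        · exact ⟨3, by decide, rfl⟩
        · exact ⟨2, by decide, rfl⟩
        · exact ⟨1, by decide, rfl⟩
        · exact ⟨0, by decide, rfl⟩
      · rintro ⟨q, hq, rfl⟩
        have : q = 3 ∨ q = 2 ∨ q = 1 ∨ q = 0 := by revert q; decide
        rcases this with rfl | rfl | rfl | rfl <;> simp))
    (g 5) (hok 5 _ (by
      intro y; simp only [List.mem_cons, List.not_mem_nil, or_false]; constructor
      · rintro (rfl | rfl | rfl | rfl | rfl)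
        · exact ⟨4, by decide, rfl⟩
        · exact ⟨3, by decide, rfl⟩
        · exact ⟨2, by decide, rfl⟩
        · exact ⟨1, by decide, rfl⟩
        · exact ⟨0, by decide, rfl⟩
      · rintro ⟨q, hq, rfl⟩
        have : q = 4 ∨ q = 3 ∨ q = 2 ∨ q = 1 ∨ q = 0 := by revert q; decide
        rcases this with rfl | rfl | rfl | rfl | rfl <;> simp))
    (g 6) (hok 6 _ (by
      intro y; simp only [List.mem_cons, List.not_mem_nil, or_false]; constructor
      · rintro (rfl | rfl | rfl | rfl | rfl | rfl)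
        · exact ⟨5, by decide, rfl⟩
        · exact ⟨4, by decide, rfl⟩
        · exact ⟨3, by decide, rfl⟩
        · exact ⟨2, by decide, rfl⟩
        · exact ⟨1, by decide, rfl⟩
        · exact ⟨0, by decide, rfl⟩
      · rintro ⟨q, hq, rfl⟩
        have : q = 5 ∨ q = 4 ∨ q = 3 ∨ q = 2 ∨ q = 1 ∨ q = 0 := by revert q; decide
        rcases this with rfl | rfl | rfl | rfl | rfl | rfl <;> simp))
  have hsum : jj (g 0) (g 1) + jj (g 1) (g 2) + jj (g 2) (g 3) + jj (g 3) (g 4) +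
      jj (g 4) (g 5) + jj (g 5) (g 6) = ∑ i : Fin 6, jj (g i.castSucc) (g i.succ) := by
    simp only [Fin.sum_univ_succ]
    simp [add_assoc]
  rw [hsum] at hs
  have hcard : ∑ i : Fin 6, jj (g i.castSucc) (g i.succ) =
      (Finset.univ.filter fun i : Fin 6 => ¬ ltQ (g i.castSucc) (g i.succ) = true).card := by
    rw [Finset.card_filter]
    apply Finset.sum_congr rfl
    intro i _
    unfold jj
    split_ifs <;> rfl
  rw [hcard, ← Fintype.card_subtype, ← Nat.card_eq_fintype_card] at hs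
  refine hs.trans ?_
  let f : {i : Fin 6 // ¬ ltQ (g i.castSucc) (g i.succ) = true} →
      {p : Q × Q // e p.2 = e p.1 + 1 ∧ ¬ p.1 < p.2} :=
    fun i => ⟨(⟨g i.1.castSucc⟩, ⟨g i.1.succ⟩), by
      refine ⟨?_, ?_⟩
      · simp only [hg]
        simp
      · rw [lt_iffQ]
        exact i.2⟩
  apply Nat.card_le_card_of_injective f
  intro i j hij
  have h1 := congrArg (fun z => z.1.1.val) hij
  simp only [f] at h1
  have h2 := hgi _ _ h1
  exact Subtype.ext (Fin.castSucc_injective _ h2)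

/-- A linear extension with three jumps. -/
def eQ (x : Q) : ℕ := ![0, 1, 3, 2, 4, 5, 6] x.val

lemma eQ_lin : IsLinExt eQ := by
  refine ⟨bijOn_of_inj _ ?_ ?_, ?_⟩
  · rintro ⟨x⟩ ⟨y⟩
    revert x y
    decide
  · rintro ⟨x⟩
    rw [card_Q]
    revert x
    decide
  · rintro ⟨x⟩ ⟨y⟩
    revert x y
    decide

lemma eQ_jumps : jumps eQ ≤ 3 := by
  unfold jumps
  rw [Nat.card_eq_fintype_card]
  decide +kernel

/-- Linear extensions with two jumps of the poset with `x` removed. -/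
def eD (x : Q) (y : {y : Q // y ≠ x}) : ℕ :=
  (![![0, 0, 2, 1, 3, 4, 5], ![2, 0, 0, 4, 3, 1, 5], ![0, 2, 0, 3, 1, 4, 5],
    ![0, 3, 1, 0, 2, 4, 5], ![0, 1, 3, 2, 0, 4, 5], ![0, 3, 1, 4, 2, 0, 5],
    ![4, 0, 2, 1, 5, 3, 0]] : Fin 7 → Fin 7 → ℕ) x.val y.1.val

lemma card_D (x : Q) : Nat.card {y : Q // y ≠ x} = 6 := by
  rw [Nat.card_eq_fintype_card]
  revert x
  rintro ⟨x⟩
  revert x
  decide

lemma eD_lin (x : Q) : IsLinExt (eD x) := by
  obtain ⟨x⟩ := x
  refine ⟨bijOn_of_inj _ ?_ ?_, ?_⟩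
  · rintro ⟨⟨y⟩, hy⟩ ⟨⟨z⟩, hz⟩ h
    have : ∀ x y z : Fin 7, (⟨y⟩ : Q) ≠ ⟨x⟩ → (⟨z⟩ : Q) ≠ ⟨x⟩ →
        (![![0, 0, 2, 1, 3, 4, 5], ![2, 0, 0, 4, 3, 1, 5], ![0, 2, 0, 3, 1, 4, 5],
          ![0, 3, 1, 0, 2, 4, 5], ![0, 1, 3, 2, 0, 4, 5], ![0, 3, 1, 4, 2, 0, 5],
          ![4, 0, 2, 1, 5, 3, 0]] : Fin 7 → Fin 7 → ℕ) x y =
        (![![0, 0, 2, 1, 3, 4, 5], ![2, 0, 0, 4, 3, 1, 5], ![0, 2, 0, 3, 1, 4, 5],
          ![0, 3, 1, 0, 2, 4, 5], ![0, 1, 3, 2, 0, 4, 5], ![0, 3, 1, 4, 2, 0, 5],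
          ![4, 0, 2, 1, 5, 3, 0]] : Fin 7 → Fin 7 → ℕ) x z → y = z := by
      decide +kernel
    have h3 := this x y z hy hz h
    subst h3
    rfl
  · rw [card_D]
    rintro ⟨⟨y⟩, hy⟩
    have : ∀ x y : Fin 7, 
        (![![0, 0, 2, 1, 3, 4, 5], ![2, 0, 0, 4, 3, 1, 5], ![0, 2, 0, 3, 1, 4, 5],
          ![0, 3, 1, 0, 2, 4, 5], ![0, 1, 3, 2, 0, 4, 5], ![0, 3, 1, 4, 2, 0, 5],
          ![4, 0, 2, 1, 5, 3, 0]] : Fin 7 → Fin 7 → ℕ) x y < 6 := by
      decide +kernel
    exact this x y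
  · rintro ⟨⟨y⟩, hy⟩ ⟨⟨z⟩, hz⟩ h
    have : ∀ x y z : Fin 7, (⟨y⟩ : Q) ≠ ⟨x⟩ → (⟨z⟩ : Q) ≠ ⟨x⟩ → (⟨y⟩ : Q) < ⟨z⟩ →
        (![![0, 0, 2, 1, 3, 4, 5], ![2, 0, 0, 4, 3, 1, 5], ![0, 2, 0, 3, 1, 4, 5],
          ![0, 3, 1, 0, 2, 4, 5], ![0, 1, 3, 2, 0, 4, 5], ![0, 3, 1, 4, 2, 0, 5],
          ![4, 0, 2, 1, 5, 3, 0]] : Fin 7 → Fin 7 → ℕ) x y <
        (![![0, 0, 2, 1, 3, 4, 5], ![2, 0, 0, 4, 3, 1, 5], ![0, 2, 0, 3, 1, 4, 5],
          ![0, 3, 1, 0, 2, 4, 5], ![0, 1, 3, 2, 0, 4, 5], ![0, 3, 1, 4, 2, 0, 5],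
          ![4, 0, 2, 1, 5, 3, 0]] : Fin 7 → Fin 7 → ℕ) x z := by
      decide +kernel
    exact this x y z hy hz h

lemma eD_jumps (x : Q) : jumps (eD x) ≤ 2 := by
  obtain ⟨x⟩ := x
  unfold jumps
  rw [Nat.card_eq_fintype_card]
  revert x
  decide +kernel

lemma jumpNumber_Q : jumpNumber Q = 3 :=
  jumpNumber_eq eQ eQ_lin 3 eQ_jumps lower

lemma critical_Q : JumpCritical Q := by
  unfold JumpCritical
  rw [jumpNumber_Q]
  refine ⟨by norm_num, fun x => ?_⟩
  have := jumpNumber_le (eD x) (eD_lin x) _ (eD_jumps x)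
  omega

lemma indec : ∀ A : Finset (Fin 7), A.Nonempty → (∃ b, b ∉ A) →
    (∃ a ∈ A, ∃ b, b ∉ A ∧ ¬ ltQ a b = true) ∧
    (∃ a ∈ A, ∃ b, b ∉ A ∧ (ltQ a b = true ∨ ltQ b a = true)) := by
  decide +kernel

end Seven

/-- **Jump-critical posets can have any length.**
(1) For every `k ≥ 1` there is a jump-critical poset with `2k` elements, jump number `k` and a chain
of `k` elements. (2) There is a jump-critical poset with seven elements and jump number three that
contains a chain of three elements and is neither an ordinal sum nor a disjoint union of two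
nonempty posets. -/
theorem result :
    (∀ k : ℕ, 1 ≤ k → ∃ (P : Type) (_ : PartialOrder P), Finite P ∧ Nat.card P = 2 * k ∧
      JumpCritical P ∧ jumpNumber P = k ∧ ∃ c : Fin k → P, StrictMono c) ∧
    (∃ (P : Type) (_ : PartialOrder P), Finite P ∧ Nat.card P = 7 ∧
      JumpCritical P ∧ jumpNumber P = 3 ∧ (∃ x y z : P, x < y ∧ y < z) ∧
      ∀ A : Set P, A.Nonempty → Aᶜ.Nonempty →
        (∃ a ∈ A, ∃ b ∈ Aᶜ, ¬ a < b) ∧ (∃ a ∈ A, ∃ b ∈ Aᶜ, a < b ∨ b < a)) := by
  refine ⟨fun k hk => ⟨Lv k, inferInstance, inferInstance, card_lv, lv_critical hk,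
    lv_jumpNumber, fun i => ⟨i, 0⟩, fun i j hij => (lv_lt _ _).2 hij⟩,
    Q, inferInstance, inferInstance, card_Q, critical_Q, jumpNumber_Q,
    ⟨⟨1⟩, ⟨3⟩, ⟨6⟩, by decide, by decide⟩, ?_⟩
  classical
  intro A hA hB
  have h := indec (Finset.univ.filter fun i : Fin 7 => (⟨i⟩ : Q) ∈ A)
    (by
      obtain ⟨⟨a⟩, ha⟩ := hA
      exact ⟨a, by simpa using ha⟩)
    (by
      obtain ⟨⟨a⟩, ha⟩ := hB
      exact ⟨a, by simpa using ha⟩)
  simp only [Finset.mem_filter, Finset.mem_univ, true_and] at h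
  obtain ⟨⟨a, ha, b, hb, h1⟩, ⟨c, hc, d, hd, h2⟩⟩ := h
  refine ⟨⟨⟨a⟩, ha, ⟨b⟩, hb, ?_⟩, ⟨⟨c⟩, hc, ⟨d⟩, hd, ?_⟩⟩
  · rw [lt_iffQ]; exact h1
  · rw [lt_iffQ, lt_iffQ]; exact h2

end Pool.Agent.Results.MP_b5825f_co.LongCritical
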